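import Mathlib
import Pool.Agent.H981R3.LN.Loc
import Pool.Agent.H771R4.SE.Datum

set_option autoImplicit false

/-! # Project LW (helper74): statements of the tasks

Aim (MP_48b1c3_nt): the formula of Lenstra for every Galois extension `F` of the rationals (splitting
field of a monic `g` with integer coefficients), `C = {1}`, every `k`, and every group `W` generated by
an arbitrary fixed finite set of nonzero rationals and one further integer `m`, for almost all `m`. -/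

namespace Pool.Agent.H74R6.LW

open Finset Filter Topology Polynomial NumberField
open Pool.Agent.H386R2.Artin (PP Good hL)
open Pool.Agent.H981R3.LN (ql Sk)

/-- Task A1. For a Galois number field `L` and all but finitely many primes `p` the number of ring
homomorphisms from the ring of integers to `ZMod p` is zero or the degree. -/
def TaskA1 : Prop := ∀ (L : Type) [Field L] [NumberField L], IsGalois ℚ L →
  ∃ m : ℕ, 0 < m ∧ ∀ p : ℕ, p.Prime → ¬ p ∣ m → Nonempty (𝓞 L →+* ZMod p) →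
    Nat.card (𝓞 L →+* ZMod p) = Module.finrank ℚ L

/-- Task A2. Let `L` be the splitting field of the monic `f` with integer coefficients. For all but
finitely many primes `p`: there is a ring homomorphism from the ring of integers of `L` to `ZMod p` if
and only if `f` modulo `p` splits into linear factors. -/
def TaskA2 : Prop := ∀ (L : Type) [Field L] [NumberField L] (f : ℤ[X]), f.Monic →
  IsSplittingField ℚ L (f.map (Int.castRingHom ℚ)) →
  ∃ m : ℕ, 0 < m ∧ ∀ p : ℕ, p.Prime → ¬ p ∣ m →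
    (Nonempty (𝓞 L →+* ZMod p) ↔ (f.map (Int.castRingHom (ZMod p))).Splits)

/-- `g (X ^ q - 1) ∏_{a ∈ W} (X ^ q - num(a) den(a) ^ (q - 1))`; the roots of the last factors are
`den(a) a ^ (1 / q)`. -/
noncomputable def ff (g : ℤ[X]) (W : Finset ℚ) (q : ℕ) : ℤ[X] :=
  g * (X ^ q - 1) * ∏ a ∈ W, (X ^ q - C (a.num * (a.den : ℤ) ^ (q - 1)))

/-- Task B. When does this polynomial split modulo `p`? -/
def TaskB : Prop := ∀ (g : ℤ[X]), g.Monic → ∀ (W : Finset ℚ), (∀ a ∈ W, a ≠ 0) → ∀ q : ℕ, 1 ≤ q →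
  ∃ m : ℕ, 0 < m ∧ ∀ p : ℕ, p.Prime → ¬ p ∣ m →
    (((ff g W q).map (Int.castRingHom (ZMod p))).Splits ↔
      (g.map (Int.castRingHom (ZMod p))).Splits ∧ q ∣ p - 1 ∧
        ∀ a ∈ W, (a.num : ZMod p) ^ ((p - 1) / q) = (a.den : ZMod p) ^ ((p - 1) / q))

/-- Task C1. The index of a subgroup of `(ZMod p)ˣ` given by generators. Here
`ql k l = l ^ (v_l(k) + 1)` and `Sk k n` is the set of primes `l` with `ql k l ∣ n`. -/
def TaskC1 : Prop := ∀ (p : ℕ) [Fact p.Prime] (k : ℕ), k ≠ 0 → ∀ U : Set (ZMod p)ˣ,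
  ((Subgroup.closure U).index ∣ k ↔
    ∀ l ∈ Sk k (p - 1), ∃ u ∈ U, u ^ ((p - 1) / ql k l) ≠ 1)

/-- Task C2. Local count for a subset `T` of the primes `l` with `ql k l ∣ p - 1`. -/
def TaskC2 : Prop := ∀ (p : ℕ) [Fact p.Prime] (k : ℕ), k ≠ 0 → ∀ T : Finset ℕ, T ⊆ Sk k (p - 1) →
  ∀ (E : Finset ℕ) (M : ℝ) (m : ℤ) (L : ℕ), (∀ q ∈ E, (q : ZMod p) ≠ 0) → 0 ≤ M → Good E M p →
    ¬ (p : ℤ) ∣ m → ∀ S : Finset ℕ,
    (∀ q, q ∈ S ↔ q ∈ E ∧ ∀ l ∈ T, ((m : ZMod p) * (q : ZMod p)) ^ ((p - 1) / ql k l) ≠ 1) →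
    |((#S : ℕ) : ℝ) - #E * ∏ l ∈ T, (1 - 1 / (ql k l : ℝ))| ≤
      2 ^ L * M + 2 * (#E * hL L (p - 1)) + (p - 1).primeFactors.card * M

end Pool.Agent.H74R6.LW
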