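import Mathlib
import Pool.Agent.H74R6.LW.Stmts

set_option autoImplicit false

/-! # Task C2: local count for a subset of the primes `l` with `ql k l ∣ p - 1` -/

namespace Pool.Agent.H74R6.LW

open Finset
open Pool.Agent.H386R2.Artin (Good hL power_residue LC_pos)
open Pool.Agent.H981R3.LN

theorem taskC2 : TaskC2 := by
  classical
  intro p _ k hk T hT E M m L hE hM hG hm S hS
  have hp1 : 0 < p - 1 := LC_pos
  have hm' : (m : ZMod p) ≠ 0 := by rwa [Ne, ZMod.intCast_zmod_eq_zero_iff_dvd]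
  set a : ℕ → ZMod p := fun q => (m : ZMod p) * (q : ZMod p) with ha
  have ha0 : ∀ q ∈ E, a q ≠ 0 := fun q hq => mul_ne_zero hm' (hE q hq)
  obtain ⟨P, hP⟩ : ∃ P, P = T.filter (fun l => l ≤ L) := ⟨_, rfl⟩
  obtain ⟨R, hR⟩ : ∃ R, R = T.filter (fun l => L < l) := ⟨_, rfl⟩
  have hPs : P ⊆ Sk k (p - 1) := by rw [hP]; exact (filter_subset _ _).trans hT
  have hres : ∀ K : ℕ, K ∣ p - 1 →
      |((#(E.filter fun q : ℕ => a q ^ ((p - 1) / K) = 1) : ℕ) : ℝ) - (#E : ℝ) / K| ≤ M := by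
    intro K hK
    have h1 := power_residue E M m hM hG hm K hK
    have e1 : (E.filter fun q : ℕ => a q ^ ((p - 1) / K) = 1) =
        (E.filter fun q : ℕ => ((m * (q : ℤ) : ℤ) : ZMod p) ^ ((p - 1) / K) = 1) :=
      filter_congr fun q _ => by simp [ha]
    have e2 : (E.filter fun q : ℕ => (q : ZMod p) ≠ 0) = E := by
      rw [filter_eq_self]
      exact hE
    rw [e2] at h1
    rw [e1]
    exact h1
  -- the count with the primes up to L
  have hA : |((#(E.filter fun q : ℕ => ∀ l ∈ P, (a q) ^ ((p - 1) / ql k l) ≠ 1) : ℕ) : ℝ) -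
      (#E : ℝ) * (∏ l ∈ P, (1 - 1 / (ql k l : ℝ)))| ≤ 2 ^ L * M := by
    have h1 : ((#(E.filter fun q : ℕ => ∀ l ∈ P, (a q) ^ ((p - 1) / ql k l) ≠ 1) : ℕ) : ℝ)
        = ∑ K ∈ P.powerset, (-1 : ℝ) ^ #K *
          ((#(E.filter fun q : ℕ => (a q) ^ ((p - 1) / ∏ l ∈ K, ql k l) = 1) : ℕ) : ℝ) := by
      rw [Finset.card_filter]
      push_cast
      have : ∀ q ∈ E, (if ∀ l ∈ P, (a q) ^ ((p - 1) / ql k l) ≠ 1 then (1 : ℝ) else 0)
          = ∑ K ∈ P.powerset, (-1 : ℝ) ^ #K *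
            (if (a q) ^ ((p - 1) / ∏ l ∈ K, ql k l) = 1 then 1 else 0) := by
        intro q hq
        exact incl_excl _ (ha0 q hq) P hPs
      rw [Finset.sum_congr rfl this, Finset.sum_comm]
      refine Finset.sum_congr rfl fun K _ => ?_
      rw [← Finset.mul_sum]
      congr 1
      rw [Finset.card_filter]
      push_cast
      rfl
    rw [h1, prod_expand, Finset.mul_sum, ← Finset.sum_sub_distrib]
    calc |∑ K ∈ P.powerset, ((-1 : ℝ) ^ #K *
          ((#(E.filter fun q : ℕ => (a q) ^ ((p - 1) / ∏ l ∈ K, ql k l) = 1) : ℕ) : ℝ)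
          - (#E : ℝ) * ((-1 : ℝ) ^ #K * (1 / ((∏ l ∈ K, ql k l : ℕ) : ℝ))))|
        ≤ ∑ K ∈ P.powerset, |(-1 : ℝ) ^ #K *
          ((#(E.filter fun q : ℕ => (a q) ^ ((p - 1) / ∏ l ∈ K, ql k l) = 1) : ℕ) : ℝ)
          - (#E : ℝ) * ((-1 : ℝ) ^ #K * (1 / ((∏ l ∈ K, ql k l : ℕ) : ℝ)))| :=
          Finset.abs_sum_le_sum_abs _ _
      _ ≤ ∑ K ∈ P.powerset, M := by
          refine Finset.sum_le_sum fun K hK => ?_
          have hKP := (Finset.mem_powerset.mp hK).trans hPs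
          have hd : ∏ l ∈ K, ql k l ∣ p - 1 :=
            (prod_dvd_iff k _ K fun l hl => Sk_prime (hKP hl)).2 fun l hl => Sk_dvd (hKP hl)
          have h2 := hres _ hd
          have h3 : (-1 : ℝ) ^ #K *
            ((#(E.filter fun q : ℕ => (a q) ^ ((p - 1) / ∏ l ∈ K, ql k l) = 1) : ℕ) : ℝ)
            - (#E : ℝ) * ((-1 : ℝ) ^ #K * (1 / ((∏ l ∈ K, ql k l : ℕ) : ℝ)))
            = (-1 : ℝ) ^ #K * (((#(E.filter fun q : ℕ =>
              (a q) ^ ((p - 1) / ∏ l ∈ K, ql k l) = 1) : ℕ) : ℝ)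
              - (#E : ℝ) / ((∏ l ∈ K, ql k l : ℕ) : ℝ)) := by ring
          rw [h3, abs_mul, abs_pow, abs_neg, abs_one, one_pow, one_mul]
          exact h2
      _ = 2 ^ #P * M := by
          rw [Finset.sum_const, Finset.card_powerset, nsmul_eq_mul]
          push_cast
          ring
      _ ≤ 2 ^ L * M := by
          refine mul_le_mul_of_nonneg_right ?_ hM
          refine pow_le_pow_right₀ (by norm_num) ?_
          have : P ⊆ Finset.Icc 1 L := by
            intro l hl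
            rw [hP, Finset.mem_filter] at hl
            exact Finset.mem_Icc.mpr ⟨(Sk_prime (p := p) (hT hl.1)).one_le, hl.2⟩
          simpa using Finset.card_le_card this
  set B := S with hB
  set A := E.filter (fun q : ℕ => ∀ l ∈ P, (a q) ^ ((p - 1) / ql k l) ≠ 1) with hAdef
  have hBA : B ⊆ A := by
    intro q hq
    rw [hB, hS] at hq
    rw [hAdef, Finset.mem_filter]
    refine ⟨hq.1, fun l hl => hq.2 l ?_⟩
    rw [hP] at hl
    exact (mem_filter.1 hl).1
  have hAB : A ⊆ B ∪ R.biUnion fun l => E.filter fun q : ℕ => (a q) ^ ((p - 1) / ql k l) = 1 := by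
    intro q hq
    rw [hAdef, Finset.mem_filter] at hq
    rw [Finset.mem_union, Finset.mem_biUnion]
    by_cases h : ∀ l ∈ R, (a q) ^ ((p - 1) / ql k l) ≠ 1
    · left
      rw [hB, hS]
      refine ⟨hq.1, fun l hl => ?_⟩
      rcases le_or_gt l L with h1 | h1
      · exact hq.2 l (by rw [hP, mem_filter]; exact ⟨hl, h1⟩)
      · exact h l (by rw [hR, mem_filter]; exact ⟨hl, h1⟩)
    · right
      push Not at h
      obtain ⟨l, hl, hl1⟩ := h
      exact ⟨l, hl, Finset.mem_filter.mpr ⟨hq.1, hl1⟩⟩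
  have h1 : (#B : ℝ) ≤ #A := by exact_mod_cast Finset.card_le_card hBA
  have h2 : (#A : ℝ) ≤ #B + ∑ l ∈ R, ((#E : ℝ) / l + M) := by
    have h3 : #A ≤ #B + ∑ l ∈ R, #(E.filter fun q : ℕ => (a q) ^ ((p - 1) / ql k l) = 1) :=
      (Finset.card_le_card hAB).trans ((Finset.card_union_le _ _).trans
        (Nat.add_le_add_left Finset.card_biUnion_le _))
    calc (#A : ℝ) ≤ #B + ∑ l ∈ R, (#(E.filter fun q : ℕ => (a q) ^ ((p - 1) / ql k l) = 1) : ℝ) := by
          exact_mod_cast h3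
      _ ≤ _ := by
          refine add_le_add_right (Finset.sum_le_sum fun l hl => ?_) _
          rw [hR, Finset.mem_filter] at hl
          have h4 := hres _ (Sk_dvd (hT hl.1))
          rw [abs_le] at h4
          have h5 := h4.2
          have hl1 : 1 ≤ l := (Sk_prime (p := p) (hT hl.1)).one_le
          have hl1' : (0 : ℝ) < l := by exact_mod_cast hl1
          have h6 : (#E : ℝ) / (ql k l : ℝ) ≤ #E / l :=
            div_le_div_of_nonneg_left (Nat.cast_nonneg _) hl1' (by exact_mod_cast ql_ge hl1)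
          linarith
  have hsum : ∑ l ∈ R, ((#E : ℝ) / l + M) ≤ #E * hL L (p - 1) + (p - 1).primeFactors.card * M := by
    rw [Finset.sum_add_distrib, Finset.sum_const, nsmul_eq_mul]
    have hRs : R ⊆ (p - 1).primeFactors.filter (fun l => L < l) := by
      intro l hl
      rw [hR, mem_filter] at hl
      rw [mem_filter]
      exact ⟨(mem_filter.1 (hT hl.1)).1, hl.2⟩
    refine add_le_add ?_ ?_
    · unfold hL
      rw [Finset.mul_sum]
      refine le_trans (Finset.sum_le_sum_of_subset_of_nonneg hRs fun _ _ _ => by positivity) ?_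
      refine Finset.sum_le_sum fun l _ => ?_
      rw [mul_one_div]
    · refine mul_le_mul_of_nonneg_right ?_ hM
      exact_mod_cast Finset.card_le_card (hRs.trans (filter_subset _ _))
  -- comparison of the products
  have hR1 : ∀ l ∈ R, 1 ≤ l := fun l hl => by
    rw [hR, mem_filter] at hl
    exact (Sk_prime (p := p) (hT hl.1)).one_le
  have hP1 : ∀ l ∈ P, 1 ≤ l := fun l hl => (Sk_prime (p := p) (hPs hl)).one_le
  obtain ⟨r1, r2, r3⟩ := one_sub_sum_le' k R hR1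
  obtain ⟨-, g0, g1⟩ := one_sub_sum_le' k P hP1
  have hsplit : ∏ l ∈ T, (1 - 1 / (ql k l : ℝ)) = (∏ l ∈ P, (1 - 1 / (ql k l : ℝ))) *
      ∏ l ∈ R, (1 - 1 / (ql k l : ℝ)) := by
    rw [← Finset.prod_filter_mul_prod_filter_not T (fun l => l ≤ L), hP]
    congr 1
    refine Finset.prod_congr ?_ fun _ _ => rfl
    ext l
    simp only [hR, mem_filter, not_le]
  have hRh : ∑ l ∈ R, 1 / (l : ℝ) ≤ hL L (p - 1) := by
    unfold hL
    refine Finset.sum_le_sum_of_subset_of_nonneg ?_ fun _ _ _ => by positivity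
    intro l hl
    rw [hR, mem_filter] at hl
    rw [mem_filter]
    exact ⟨(mem_filter.1 (hT hl.1)).1, hl.2⟩
  have hh0 : 0 ≤ hL L (p - 1) := Finset.sum_nonneg fun l _ => by positivity
  have hE0 : (0 : ℝ) ≤ #E := Nat.cast_nonneg _
  have d1 : 0 ≤ (∏ l ∈ P, (1 - 1 / (ql k l : ℝ))) - ∏ l ∈ T, (1 - 1 / (ql k l : ℝ)) := by
    rw [hsplit]
    nlinarith
  have d2 : (∏ l ∈ P, (1 - 1 / (ql k l : ℝ))) - ∏ l ∈ T, (1 - 1 / (ql k l : ℝ)) ≤ hL L (p - 1) := by
    rw [hsplit]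
    nlinarith
  have d3 : 0 ≤ (#E : ℝ) * ((∏ l ∈ P, (1 - 1 / (ql k l : ℝ))) -
      ∏ l ∈ T, (1 - 1 / (ql k l : ℝ))) := mul_nonneg hE0 d1
  have d4 : (#E : ℝ) * ((∏ l ∈ P, (1 - 1 / (ql k l : ℝ))) -
      ∏ l ∈ T, (1 - 1 / (ql k l : ℝ))) ≤ #E * hL L (p - 1) := mul_le_mul_of_nonneg_left d2 hE0
  rw [abs_le] at hA ⊢
  have h2L : (0 : ℝ) ≤ 2 ^ L * M := by positivity
  have hh : 0 ≤ (#E : ℝ) * hL L (p - 1) := mul_nonneg hE0 hh0
  have hw : 0 ≤ ((p - 1).primeFactors.card : ℝ) * M := by positivity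
  constructor
  · linarith [hA.1]
  · linarith [hA.2]

end Pool.Agent.H74R6.LW
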