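import Mathlib
import Pool.Agent.H74R6.LW.Stmts
import Pool.Agent.H484R2.Pit

set_option autoImplicit false

/-! # Density of the primes modulo which a monic polynomial splits -/

namespace Pool.Agent.H74R6.LW

open Finset Filter Topology Polynomial NumberField

open Classical in
/-- primes `p ≤ x` with the property `P` -/
noncomputable def cnt (P : ℕ → Prop) (x : ℕ) : ℕ :=
  (((Finset.range (x + 1)).filter Nat.Prime).filter P).card

lemma cnt_diff (P Q : ℕ → Prop) (m : ℕ) (hm : 0 < m)
    (h : ∀ p : ℕ, p.Prime → ¬ p ∣ m → (P p ↔ Q p)) (x : ℕ) :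
    |(cnt P x : ℝ) - (cnt Q x : ℝ)| ≤ m + 1 := by
  classical
  have key : ∀ P Q : ℕ → Prop, (∀ p : ℕ, p.Prime → ¬ p ∣ m → (P p ↔ Q p)) →
      (cnt P x : ℝ) ≤ cnt Q x + (m + 1) := by
    intro P Q h
    have h1 : ((Finset.range (x + 1)).filter Nat.Prime).filter P ⊆
        ((Finset.range (x + 1)).filter Nat.Prime).filter Q ∪ Finset.range (m + 1) := by
      intro p hp
      simp only [mem_filter, mem_range] at hp
      simp only [mem_union, mem_filter, mem_range]
      by_cases hd : p ∣ m
      · right
        have := Nat.le_of_dvd hm hd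
        omega
      · left
        exact ⟨hp.1, (h p hp.1.2 hd).1 hp.2⟩
    have h2 := (Finset.card_le_card h1).trans (Finset.card_union_le _ _)
    rw [Finset.card_range] at h2
    unfold cnt
    have h3 : (((((Finset.range (x + 1)).filter Nat.Prime).filter P).card : ℕ) : ℝ) ≤
        (((((Finset.range (x + 1)).filter Nat.Prime).filter Q).card + (m + 1) : ℕ) : ℝ) := by
      exact_mod_cast h2
    push_cast at h3
    exact h3
  have h1 := key P Q h
  have h2 := key Q P (fun p hp hd => (h p hp hd).symm)
  rw [abs_le]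
  constructor <;> linarith

lemma pi_atTop : Tendsto (fun x : ℕ => (Nat.primeCounting x : ℝ)) atTop atTop := by
  have := Nat.tendsto_primeCounting
  exact tendsto_natCast_atTop_atTop.comp this

lemma small_div (c : ℝ) (F : ℕ → ℝ) (hF : ∀ x, |F x| ≤ c) :
    Tendsto (fun x : ℕ => F x / (Nat.primeCounting x : ℝ)) atTop (𝓝 0) := by
  have h1 : Tendsto (fun x : ℕ => c / (Nat.primeCounting x : ℝ)) atTop (𝓝 0) :=
    tendsto_const_nhds.div_atTop pi_atTop
  refine squeeze_zero_norm (fun x => ?_) h1
  rw [Real.norm_eq_abs, abs_div, Nat.abs_cast]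
  exact div_le_div_of_nonneg_right (hF x) (Nat.cast_nonneg _)

/-- two properties that agree for almost all primes have the same density -/
lemma dens_congr (P Q : ℕ → Prop) (m : ℕ) (hm : 0 < m)
    (h : ∀ p : ℕ, p.Prime → ¬ p ∣ m → (P p ↔ Q p)) (δ : ℝ)
    (hQ : Tendsto (fun x : ℕ => (cnt Q x : ℝ) / (Nat.primeCounting x : ℝ)) atTop (𝓝 δ)) :
    Tendsto (fun x : ℕ => (cnt P x : ℝ) / (Nat.primeCounting x : ℝ)) atTop (𝓝 δ) := by
  have h1 := small_div (m + 1) (fun x => (cnt P x : ℝ) - cnt Q x) (cnt_diff P Q m hm h)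
  have h2 := hQ.add h1
  rw [add_zero] at h2
  refine h2.congr fun x => ?_
  ring

lemma isSF (f : ℚ[X]) :
    @IsSplittingField ℚ (SplittingField f) _ _ DivisionRing.toRatAlgebra f := by
  have h := IsSplittingField.splittingField f
  convert h
  exact Subsingleton.elim _ _

lemma nf (f : ℚ[X]) : NumberField (SplittingField f) where
  to_charZero := inferInstance
  to_finiteDimensional := by
    exact @IsSplittingField.finiteDimensional ℚ (SplittingField f) _ _ DivisionRing.toRatAlgebra f
      (isSF f)

/-- density of the primes modulo which `f` splits -/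
theorem taskA (hA1 : TaskA1) (hA2 : TaskA2) (f : ℤ[X]) (hf : f.Monic) :
    Tendsto (fun x : ℕ => (cnt (fun p => (f.map (Int.castRingHom (ZMod p))).Splits) x : ℝ) /
      (Nat.primeCounting x : ℝ)) atTop
      (𝓝 (1 / (Module.finrank ℚ (SplittingField (f.map (Int.castRingHom ℚ))) : ℝ))) := by
  classical
  haveI := nf (f.map (Int.castRingHom ℚ))
  have hsf := isSF (f.map (Int.castRingHom ℚ))
  obtain ⟨L, hL⟩ : ∃ L, L = SplittingField (f.map (Int.castRingHom ℚ)) := ⟨_, rfl⟩
  have hgal : IsGalois ℚ (SplittingField (f.map (Int.castRingHom ℚ))) := by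
    haveI : Normal ℚ (SplittingField (f.map (Int.castRingHom ℚ))) :=
      Normal.of_isSplittingField (f.map (Int.castRingHom ℚ))
    exact ⟨⟩
  obtain ⟨m1, hm1, h1⟩ := hA1 (SplittingField (f.map (Int.castRingHom ℚ))) hgal
  obtain ⟨m2, hm2, h2⟩ := hA2 (SplittingField (f.map (Int.castRingHom ℚ))) f hf hsf
  obtain ⟨n, hn⟩ : ∃ n, n = Module.finrank ℚ (SplittingField (f.map (Int.castRingHom ℚ))) :=
    ⟨_, rfl⟩
  have hn0 : 0 < n := by rw [hn]; exact Module.finrank_pos
  have hn0' : (0 : ℝ) < n := by exact_mod_cast hn0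
  have hpit := Pool.Agent.H484R2.pit (SplittingField (f.map (Int.castRingHom ℚ)))
  rw [← hn] at h1 ⊢
  have hle : ∀ p : ℕ, p.Prime →
      (Nat.card (𝓞 (SplittingField (f.map (Int.castRingHom ℚ))) →+* ZMod p) : ℝ) ≤ n := by
    intro p hp
    rw [hn]
    exact H332.PIT.hc_cast_le hp
  -- difference of the two sums
  have hdiff : ∀ x : ℕ, |(∑ p ∈ (Finset.range (x + 1)).filter Nat.Prime,
      (Nat.card (𝓞 (SplittingField (f.map (Int.castRingHom ℚ))) →+* ZMod p) : ℝ)) -
      n * (cnt (fun p => (f.map (Int.castRingHom (ZMod p))).Splits) x : ℝ)| ≤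
        n * (m1 * m2 + 1) := by
    intro x
    unfold cnt
    rw [Finset.card_filter]
    push_cast
    rw [Finset.mul_sum, ← Finset.sum_sub_distrib]
    refine (Finset.abs_sum_le_sum_abs _ _).trans ?_
    have hb : ∀ p ∈ (Finset.range (x + 1)).filter Nat.Prime,
        |(Nat.card (𝓞 (SplittingField (f.map (Int.castRingHom ℚ))) →+* ZMod p) : ℝ) -
          n * (if (f.map (Int.castRingHom (ZMod p))).Splits then (1 : ℝ) else 0)| ≤
        if p ∈ Finset.range (m1 * m2 + 1) then (n : ℝ) else 0 := by
      intro p hp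
      have hpp := (mem_filter.1 hp).2
      by_cases hd : p ∣ m1 * m2
      · have := Nat.le_of_dvd (Nat.mul_pos hm1 hm2) hd
        rw [if_pos (Finset.mem_range.2 (by omega))]
        have h3 := hle p hpp
        have h4 : (0 : ℝ) ≤ (Nat.card (𝓞 (SplittingField (f.map (Int.castRingHom ℚ))) →+*
          ZMod p) : ℝ) := Nat.cast_nonneg _
        split_ifs
        · rw [abs_le]; constructor <;> linarith
        · rw [mul_zero, sub_zero, abs_of_nonneg h4]; exact h3
      · have hd1 : ¬ p ∣ m1 := fun h => hd (h.mul_right _)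
        have hd2 : ¬ p ∣ m2 := fun h => hd (h.mul_left _)
        have h3 : |(Nat.card (𝓞 (SplittingField (f.map (Int.castRingHom ℚ))) →+* ZMod p) : ℝ) -
          n * (if (f.map (Int.castRingHom (ZMod p))).Splits then (1 : ℝ) else 0)| = 0 := by
          by_cases hs : (f.map (Int.castRingHom (ZMod p))).Splits
          · rw [if_pos hs, h1 p hpp hd1 ((h2 p hpp hd2).2 hs)]
            simp
          · rw [if_neg hs]
            have : IsEmpty (𝓞 (SplittingField (f.map (Int.castRingHom ℚ))) →+* ZMod p) := by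
              rw [← not_nonempty_iff]
              exact fun h => hs ((h2 p hpp hd2).1 h)
            rw [Nat.card_of_isEmpty]
            simp
        rw [h3]
        split_ifs
        · exact hn0'.le
        · exact le_rfl
    refine (Finset.sum_le_sum hb).trans ?_
    rw [← Finset.sum_filter, Finset.sum_const, nsmul_eq_mul, mul_comm]
    refine mul_le_mul_of_nonneg_left ?_ hn0'.le
    have h5 : (((Finset.range (x + 1)).filter Nat.Prime).filter
        (fun p => p ∈ Finset.range (m1 * m2 + 1))).card ≤ m1 * m2 + 1 := by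
      calc _ ≤ (Finset.range (m1 * m2 + 1)).card := by
            apply Finset.card_le_card
            intro p hp
            exact (mem_filter.1 hp).2
        _ = _ := Finset.card_range _
    exact_mod_cast h5
  have hz := small_div _ _ hdiff
  have h3 := (hpit.sub hz).div_const (n : ℝ)
  rw [sub_zero] at h3
  refine h3.congr fun x => ?_
  field_simp
  ring

end Pool.Agent.H74R6.LW
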