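import Mathlib
import Pool.Agent.H74R6.LW.Dens
import Pool.Agent.H74R5.MainC

set_option autoImplicit false

/-! # The main term -/

namespace Pool.Agent.H74R6.LW

open Finset Filter Topology Polynomial NumberField ArithmeticFunction
open Pool.Agent.H386R2.Artin (PP Good hL LC_pos)
open Pool.Agent.H730R2.AA (PR Wd Wd_bound)
open Pool.Agent.H981R3.LN (ql Sk mem_Sk ql_ge prod_dvd_iff Sk_prime Sk_dvd pow_prod_iff)

/-- `q(n)` -/
def QQ (k n : ℕ) : ℕ := ∏ l ∈ n.primeFactors, ql k l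

/-- the admissible primes -/
def Adm (g : ℤ[X]) (W : Finset ℚ) (p : ℕ) : Prop :=
  (g.map (Int.castRingHom (ZMod p))).Splits ∧
    ∀ a ∈ W, (a.num : ZMod p) ≠ 0 ∧ (a.den : ZMod p) ≠ 0

/-- the residue of `a` -/
noncomputable def rs (a : ℚ) (p : ℕ) : ZMod p := (a.num : ZMod p) * ((a.den : ZMod p))⁻¹

open Classical in
/-- the primes at which the index of `W` is divisible by `ql k l` -/
noncomputable def TT (k : ℕ) (W : Finset ℚ) (p : ℕ) : Finset ℕ := (Sk k (p - 1)).filter fun l =>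
  ∀ a ∈ W, (a.num : ZMod p) ^ ((p - 1) / ql k l) = (a.den : ZMod p) ^ ((p - 1) / ql k l)

/-- all elements of `W` are `q(n)`-th powers -/
def SS (k : ℕ) (W : Finset ℚ) (n p : ℕ) : Prop := QQ k n ∣ p - 1 ∧
  ∀ a ∈ W, (a.num : ZMod p) ^ ((p - 1) / QQ k n) = (a.den : ZMod p) ^ ((p - 1) / QQ k n)

open Classical in
/-- the local density -/
noncomputable def GW (g : ℤ[X]) (W : Finset ℚ) (k p : ℕ) : ℝ :=
  if Adm g W p then ∏ l ∈ TT k W p, (1 - 1 / (ql k l : ℝ)) else 0

lemma rs_iff {a : ℚ} {p : ℕ} [Fact p.Prime] (h : (a.den : ZMod p) ≠ 0) (e : ℕ) :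
    (a.num : ZMod p) ^ e = (a.den : ZMod p) ^ e ↔ rs a p ^ e = 1 := by
  unfold rs
  rw [mul_pow, inv_pow, mul_inv_eq_one₀ (pow_ne_zero _ h)]

lemma rs_ne {a : ℚ} {p : ℕ} [Fact p.Prime] (h1 : (a.num : ZMod p) ≠ 0)
    (h : (a.den : ZMod p) ≠ 0) : rs a p ≠ 0 := mul_ne_zero h1 (inv_ne_zero h)

lemma SS_iff (g : ℤ[X]) (W : Finset ℚ) (k n p : ℕ) (hp : p.Prime) (hA : Adm g W p)
    (_hn : n ≠ 0) : SS k W n p ↔ n.primeFactors ⊆ TT k W p := by
  classical
  have : Fact p.Prime := ⟨hp⟩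
  have hp1 : p - 1 ≠ 0 := (LC_pos (p := p)).ne'
  have hpr : ∀ l ∈ n.primeFactors, l.Prime := fun l hl => Nat.prime_of_mem_primeFactors hl
  unfold SS QQ
  rw [prod_dvd_iff k (p - 1) n.primeFactors hpr]
  constructor
  · rintro ⟨h1, h2⟩
    have hS : n.primeFactors ⊆ Sk k (p - 1) := fun l hl => (mem_Sk hp1).2 ⟨hpr l hl, h1 l hl⟩
    intro l hl
    unfold TT
    rw [mem_filter]
    refine ⟨hS hl, fun a ha => ?_⟩
    have h3 := h2 a ha
    rw [rs_iff (hA.2 a ha).2] at h3 ⊢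
    exact (pow_prod_iff (rs_ne (hA.2 a ha).1 (hA.2 a ha).2) n.primeFactors hS).2 h3 l hl
  · intro h
    have hS : n.primeFactors ⊆ Sk k (p - 1) := fun l hl => by
      have := h hl
      unfold TT at this
      exact (mem_filter.1 this).1
    refine ⟨fun l hl => Sk_dvd (hS hl), fun a ha => ?_⟩
    rw [rs_iff (hA.2 a ha).2]
    refine (pow_prod_iff (rs_ne (hA.2 a ha).1 (hA.2 a ha).2) n.primeFactors hS).1 fun l hl => ?_
    have := h hl
    unfold TT at this
    rw [← rs_iff (hA.2 a ha).2]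
    exact (mem_filter.1 this).2 a ha

open Classical in
/-- the terms of the expansion -/
noncomputable def tm (g : ℤ[X]) (W : Finset ℚ) (k p n : ℕ) : ℝ :=
  ((moebius n : ℤ) : ℝ) / (QQ k n : ℝ) * (if Adm g W p ∧ SS k W n p then 1 else 0)

lemma sqf_prod (S : Finset ℕ) (h : ∀ l ∈ S, l.Prime) : Squarefree (∏ l ∈ S, l) := by
  induction S using Finset.induction_on with
  | empty => simp
  | insert l S hl ih =>
    rw [Finset.prod_insert hl, Nat.squarefree_mul_iff]
    refine ⟨Nat.Coprime.prod_right fun x hx => ?_, (h l (mem_insert_self _ _)).squarefree,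
      ih fun x hx => h x (mem_insert_of_mem hx)⟩
    refine (Nat.coprime_primes (h l (mem_insert_self _ _)) (h x (mem_insert_of_mem hx))).2 ?_
    rintro rfl
    exact hl hx

lemma TT_prime {k : ℕ} {W : Finset ℚ} {p l : ℕ} (hp : p.Prime) (hl : l ∈ TT k W p) : l.Prime := by
  have : Fact p.Prime := ⟨hp⟩
  unfold TT at hl
  exact Sk_prime (p := p) (mem_filter.1 hl).1

lemma tm_support (g : ℤ[X]) (W : Finset ℚ) (k p : ℕ) (hp : p.Prime) (hA : Adm g W p) (n : ℕ)
    (hn : n ∉ (∏ l ∈ TT k W p, l).divisors) : tm g W k p n = 0 := by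
  classical
  unfold tm
  by_cases hsq : Squarefree n
  · rw [if_neg, mul_zero]
    rintro ⟨-, h⟩
    rw [SS_iff g W k n p hp hA hsq.ne_zero] at h
    apply hn
    rw [Nat.mem_divisors]
    refine ⟨?_, Finset.prod_ne_zero_iff.2 fun l hl => (TT_prime hp hl).ne_zero⟩
    rw [← Nat.prod_primeFactors_of_squarefree hsq]
    exact Finset.prod_dvd_prod_of_subset _ _ _ h
  · rw [moebius_eq_zero_of_not_squarefree hsq]
    simp

lemma GW_expand (g : ℤ[X]) (W : Finset ℚ) (k p : ℕ) (hp : p.Prime) :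
    HasSum (tm g W k p) (GW g W k p) := by
  classical
  by_cases hA : Adm g W p
  swap
  · have h1 : tm g W k p = fun _ => 0 := by
      funext n
      unfold tm
      rw [if_neg (fun h => hA h.1), mul_zero]
    rw [h1]
    unfold GW
    rw [if_neg hA]
    exact hasSum_zero
  · obtain ⟨r, hr⟩ : ∃ r, r = ∏ l ∈ TT k W p, l := ⟨_, rfl⟩
    have hpr : ∀ l ∈ TT k W p, l.Prime := fun l hl => TT_prime hp hl
    have hrp : r.primeFactors = TT k W p := by rw [hr]; exact Nat.primeFactors_prod hpr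
    have hr0 : r ≠ 0 := by
      rw [hr]; exact Finset.prod_ne_zero_iff.2 fun l hl => (hpr l hl).ne_zero
    have hrs : Squarefree r := by
      rw [hr]
      exact sqf_prod _ hpr
    have h2 : GW g W k p = ∑ n ∈ r.divisors, tm g W k p n := by
      unfold GW
      rw [if_pos hA, ← hrp]
      have h3 : ∀ l ∈ r.primeFactors, 1 - 1 / (ql k l : ℝ) =
          1 + (prodPrimeFactors (fun l => -(1 / (ql k l : ℝ)))) l := by
        intro l hl
        have hl' := Nat.prime_of_mem_primeFactors hl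
        rw [prodPrimeFactors_apply hl'.ne_zero, hl'.primeFactors, Finset.prod_singleton]
        ring
      rw [Finset.prod_congr rfl h3,
        (IsMultiplicative.prodPrimeFactors _).prodPrimeFactors_one_add_of_squarefree hrs]
      refine Finset.sum_congr rfl fun n hn => ?_
      have hnd := (Nat.mem_divisors.1 hn).1
      have hns := hrs.squarefree_of_dvd hnd
      have hn0 := hns.ne_zero
      rw [prodPrimeFactors_apply hn0]
      unfold tm
      have hS : SS k W n p := by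
        rw [SS_iff g W k n p hp hA hn0, ← hrp]
        exact Nat.primeFactors_mono hnd hr0
      rw [if_pos ⟨hA, hS⟩, mul_one, Pool.Agent.H730R2.AA.Euler.mu_eq_prod n hns]
      unfold QQ
      push_cast
      rw [← Finset.prod_div_distrib]
      refine Finset.prod_congr rfl fun l _ => ?_
      ring
    rw [h2]
    refine hasSum_sum_of_ne_finset_zero fun n hn => ?_
    rw [hr] at hn
    exact tm_support g W k p hp hA n hn

/-- the number of primes `p ≤ x` counted for `n` -/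
noncomputable def VV (g : ℤ[X]) (W : Finset ℚ) (k n x : ℕ) : ℕ :=
  cnt (fun p => Adm g W p ∧ SS k W n p) x

lemma sum_GW (g : ℤ[X]) (W : Finset ℚ) (k x : ℕ) :
    ∑ p ∈ PP x, GW g W k p =
      ∑' n : ℕ, ((moebius n : ℤ) : ℝ) / (QQ k n : ℝ) * (VV g W k n x : ℝ) := by
  classical
  have h1 : ∀ p ∈ PP x, GW g W k p = ∑' n, tm g W k p n := fun p hp =>
    (GW_expand g W k p (mem_filter.1 hp).2).tsum_eq.symm
  rw [Finset.sum_congr rfl h1, ← Summable.tsum_finsetSum]
  · refine tsum_congr fun n => ?_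
    unfold tm VV cnt PP
    rw [← Finset.mul_sum, Finset.card_filter]
    push_cast
    rfl
  · intro p hp
    exact (GW_expand g W k p (mem_filter.1 hp).2).summable

lemma n_le_QQ (k n : ℕ) (hn : Squarefree n) : n ∣ QQ k n := by
  unfold QQ
  conv_lhs => rw [← Nat.prod_primeFactors_of_squarefree hn]
  exact Finset.prod_dvd_prod_of_dvd _ _ fun l _ => dvd_pow_self l (Nat.succ_ne_zero _)

lemma QQ_pos (k n : ℕ) : 0 < QQ k n := by
  unfold QQ
  exact Finset.prod_pos fun l hl => Nat.pos_of_ne_zero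
    (pow_ne_zero _ (Nat.prime_of_mem_primeFactors hl).ne_zero)

lemma cnt_le (P : ℕ → Prop) (x : ℕ) : cnt P x ≤ Nat.primeCounting x := by
  unfold cnt
  rw [Nat.primeCounting, Nat.primeCounting', Nat.count_eq_card_filter_range]
  refine Finset.card_le_card (fun q hq => ?_)
  simp only [Finset.mem_filter] at hq
  exact Finset.mem_filter.2 hq.1

lemma VV_le (g : ℤ[X]) (W : Finset ℚ) (k : ℕ) : ∃ C : ℝ, 0 < C ∧ ∀ n x : ℕ, Squarefree n → 2 ≤ x →
    (VV g W k n x : ℝ) / (Nat.primeCounting x : ℝ) ≤ C * (n : ℝ) ^ (-(1 : ℝ) / 4) := by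
  classical
  obtain ⟨C, hC, hb⟩ := Wd_bound 1
  refine ⟨C + 1, by linarith, fun n x hn hx => ?_⟩
  have hn0 : n ≠ 0 := hn.ne_zero
  have hn1 : 1 ≤ n := Nat.pos_of_ne_zero hn0
  have hnr : (0 : ℝ) ≤ (n : ℝ) ^ (-(1 : ℝ) / 4) := Real.rpow_nonneg (Nat.cast_nonneg _) _
  rcases Nat.eq_or_lt_of_le hn1 with h1 | h1
  · rw [← h1]
    have h2 : (VV g W k 1 x : ℝ) ≤ (Nat.primeCounting x : ℝ) := by
      exact Nat.cast_le.2 (cnt_le _ x)
    have h3 : (VV g W k 1 x : ℝ) / (Nat.primeCounting x : ℝ) ≤ 1 :=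
      div_le_one_of_le₀ h2 (Nat.cast_nonneg _)
    rw [Nat.cast_one, Real.one_rpow, mul_one]
    linarith
  · have h2 : (VV g W k n x : ℝ) ≤ |Wd 1 n x| := by
      have h3 : (VV g W k n x : ℝ) ≤
          (((PR 1 x).filter (fun p => p % n = 1 % n)).card : ℝ) := by
        unfold VV cnt
        refine Nat.cast_le.2 (Finset.card_le_card fun p hp => ?_)
        simp only [mem_filter, mem_range] at hp
        obtain ⟨⟨h4, h5⟩, -, h6⟩ := hp
        have h7 : n ∣ p - 1 := (n_le_QQ k n hn).trans h6.1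
        have h8 : p ≠ 2 := by
          rintro rfl
          have := Nat.le_of_dvd (by norm_num) h7
          omega
        unfold PR
        simp only [mem_filter, mem_range]
        refine ⟨⟨h4, h5, h8, ?_⟩, ?_⟩
        · intro h
          have h9 := Int.le_of_dvd one_pos h
          have := h5.two_le
          omega
        · have h9 := h5.one_le
          exact ((Nat.modEq_iff_dvd' h9).2 h7).symm
      have h4 : (((PR 1 x).filter (fun p => p % n = 1 % n)).card : ℝ) ≤ Wd 1 n x := by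
        unfold Wd
        rw [Finset.card_eq_sum_ones]
        push_cast
        refine Finset.sum_le_sum fun p _ => ?_
        split_ifs
        · rw [jacobiSym.one_left]
          norm_num
        · norm_num
      exact h3.trans (h4.trans (le_abs_self _))
    calc (VV g W k n x : ℝ) / (Nat.primeCounting x : ℝ) ≤
        |Wd 1 n x| / (Nat.primeCounting x : ℝ) := div_le_div_of_nonneg_right h2 (Nat.cast_nonneg _)
      _ ≤ C * (n : ℝ) ^ (-(1 : ℝ) / 4) := hb n x hn1 hx
      _ ≤ (C + 1) * (n : ℝ) ^ (-(1 : ℝ) / 4) := by nlinarith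

/-- the degree of `F L_n` -/
noncomputable def dg (g : ℤ[X]) (W : Finset ℚ) (k n : ℕ) : ℕ :=
  Module.finrank ℚ (SplittingField ((ff g W (QQ k n)).map (Int.castRingHom ℚ)))

/-- the density -/
noncomputable def del (g : ℤ[X]) (W : Finset ℚ) (k : ℕ) : ℝ :=
  ∑' n : ℕ, ((moebius n : ℤ) : ℝ) / ((QQ k n : ℝ) * (dg g W k n : ℝ))

lemma ff_monic (g : ℤ[X]) (hg : g.Monic) (W : Finset ℚ) (q : ℕ) (hq : 1 ≤ q) :
    (ff g W q).Monic := by
  unfold ff
  refine (hg.mul ?_).mul (monic_prod_of_monic _ _ fun a _ => ?_)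
  · have := monic_X_pow_sub_C (1 : ℤ) (n := q) (by omega)
    simpa using this
  · exact monic_X_pow_sub_C _ (by omega)

theorem VV_lim (hA1 : TaskA1) (hA2 : TaskA2) (hB : TaskB) (g : ℤ[X]) (hg : g.Monic)
    (W : Finset ℚ) (hW : ∀ a ∈ W, a ≠ 0) (k n : ℕ) :
    Tendsto (fun x : ℕ => (VV g W k n x : ℝ) / (Nat.primeCounting x : ℝ)) atTop
      (𝓝 (1 / (dg g W k n : ℝ))) := by
  classical
  obtain ⟨m, hm, h⟩ := hB g hg W hW (QQ k n) (QQ_pos k n)
  have hA := taskA hA1 hA2 (ff g W (QQ k n)) (ff_monic g hg W _ (QQ_pos k n))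
  have hM0 : 0 < m * ∏ a ∈ W, (a.num.natAbs * a.den) := by
    refine Nat.mul_pos hm (Finset.prod_pos fun a ha => Nat.mul_pos ?_ a.pos)
    rw [Int.natAbs_pos]
    exact Rat.num_ne_zero.2 (hW a ha)
  refine dens_congr _ _ (m * ∏ a ∈ W, (a.num.natAbs * a.den)) hM0 (fun p hp hd => ?_) _ hA
  have hd1 : ¬ p ∣ m := fun h => hd (h.mul_right _)
  have hd2 : ∀ a ∈ W, (a.num : ZMod p) ≠ 0 ∧ (a.den : ZMod p) ≠ 0 := by
    intro a ha
    have h3 : a.num.natAbs * a.den ∣ ∏ a ∈ W, (a.num.natAbs * a.den) := Finset.dvd_prod_of_mem _ ha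
    constructor
    · rw [Ne, ZMod.intCast_zmod_eq_zero_iff_dvd]
      intro h4
      exact hd (((Int.natCast_dvd.1 h4).mul_right _).trans (h3.mul_left _))
    · rw [Ne, ZMod.natCast_eq_zero_iff]
      intro h4
      exact hd ((h4.mul_left _).trans (h3.mul_left _))
  rw [h p hp hd1]
  unfold Adm SS
  constructor
  · rintro ⟨⟨h1, -⟩, h2, h3⟩
    exact ⟨h1, h2, h3⟩
  · rintro ⟨h1, h2, h3⟩
    exact ⟨⟨h1, hd2⟩, h2, h3⟩

theorem GW_lim (hA1 : TaskA1) (hA2 : TaskA2) (hB : TaskB) (g : ℤ[X]) (hg : g.Monic)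
    (W : Finset ℚ) (hW : ∀ a ∈ W, a ≠ 0) (k : ℕ) :
    Tendsto (fun x : ℕ => (∑ p ∈ PP x, GW g W k p) / (Nat.primeCounting x : ℝ)) atTop
      (𝓝 (del g W k)) := by
  classical
  obtain ⟨C, hC, hb⟩ := VV_le g W k
  have e1 : ∀ x : ℕ, (∑ p ∈ PP x, GW g W k p) / (Nat.primeCounting x : ℝ) =
      ∑' n : ℕ, ((moebius n : ℤ) : ℝ) / (QQ k n : ℝ) *
        ((VV g W k n x : ℝ) / (Nat.primeCounting x : ℝ)) := by
    intro x
    rw [sum_GW, ← tsum_div_const]
    apply tsum_congr
    intro n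
    rw [mul_div_assoc]
  simp_rw [e1]
  have e2 : del g W k = ∑' n : ℕ, ((moebius n : ℤ) : ℝ) / (QQ k n : ℝ) * (1 / (dg g W k n : ℝ)) := by
    unfold del
    refine tsum_congr fun n => ?_
    rw [div_mul_div_comm, mul_one]
  rw [e2]
  apply tendsto_tsum_of_dominated_convergence
    (bound := fun n : ℕ => C * (n : ℝ) ^ (-(5 : ℝ) / 4))
  · apply Summable.mul_left
    rw [Real.summable_nat_rpow]
    norm_num
  · intro n
    exact (VV_lim hA1 hA2 hB g hg W hW k n).const_mul _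
  · filter_upwards [eventually_ge_atTop 2] with x hx n
    by_cases hn : Squarefree n
    · have hn0 : 0 < n := Nat.pos_of_ne_zero hn.ne_zero
      have hn' : (0 : ℝ) < n := by exact_mod_cast hn0
      have hQ : (n : ℝ) ≤ (QQ k n : ℝ) := by
        exact_mod_cast Nat.le_of_dvd (QQ_pos k n) (n_le_QQ k n hn)
      have hmu : |((moebius n : ℤ) : ℝ)| ≤ 1 := by
        have := abs_moebius_le_one (n := n)
        exact_mod_cast this
      have h2 := hb n x hn hx
      have h3 : 0 ≤ (VV g W k n x : ℝ) / (Nat.primeCounting x : ℝ) := by positivity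
      rw [Real.norm_eq_abs, abs_mul, abs_div, abs_of_nonneg h3, Nat.abs_cast]
      calc |((moebius n : ℤ) : ℝ)| / (QQ k n : ℝ) * ((VV g W k n x : ℝ) / (Nat.primeCounting x : ℝ))
          ≤ 1 / (n : ℝ) * (C * (n : ℝ) ^ (-(1 : ℝ) / 4)) := by
            apply mul_le_mul _ h2 h3 (by positivity)
            calc |((moebius n : ℤ) : ℝ)| / (QQ k n : ℝ) ≤ 1 / (QQ k n : ℝ) := by
                  gcongr
              _ ≤ 1 / (n : ℝ) := one_div_le_one_div_of_le hn' hQ
        _ = C * (n : ℝ) ^ (-(5 : ℝ) / 4) := by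
            have : (n : ℝ) ^ (-(5 : ℝ) / 4) = (n : ℝ) ^ (-(1 : ℝ) / 4) * (n : ℝ) ^ (-1 : ℝ) := by
              rw [← Real.rpow_add hn']
              norm_num
            rw [this, Real.rpow_neg_one]
            field_simp
    · rw [moebius_eq_zero_of_not_squarefree hn]
      simp only [Int.cast_zero, zero_div, zero_mul, norm_zero]
      positivity

end Pool.Agent.H74R6.LW
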