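import Mathlib
import Pool.Agent.H74R6.LW.Lim
import Pool.Agent.H74R6.LW.C2
import Pool.Agent.H771R4.SE.AllX2

set_option autoImplicit false

/-! # The counting problem and the averaged theorem -/

namespace Pool.Agent.H74R6.LW

open Finset Filter Topology Polynomial NumberField
open Pool.Agent.H386R2.Artin (PP Good hL LC_pos)
open Pool.Agent.H981R3.LN (ql Sk mem_Sk ql_ge prod_dvd_iff Sk_prime Sk_dvd pow_prod_iff
  one_sub_sum_le')
open Pool.Agent.H771R4.SE

/-- the generators modulo `p` -/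
def UU (W : Finset ℚ) (p : ℕ) (b : ZMod p) : Set (ZMod p)ˣ :=
  {u | (∃ a ∈ W, (u : ZMod p) * (a.den : ZMod p) = (a.num : ZMod p)) ∨ (u : ZMod p) = b}

lemma TT_one_le {k : ℕ} {W : Finset ℚ} {p l : ℕ} (hl : l ∈ TT k W p) : 1 ≤ l := by
  unfold TT at hl
  have h1 := (mem_filter.1 hl).1
  unfold Pool.Agent.H981R3.LN.Sk at h1
  exact (Nat.prime_of_mem_primeFactors (mem_filter.1 h1).1).one_le

lemma GW_nn (g : ℤ[X]) (W : Finset ℚ) (k p : ℕ) : 0 ≤ GW g W k p := by
  unfold GW
  split_ifs
  · exact (one_sub_sum_le' k _ fun _ hl => TT_one_le hl).2.1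
  · exact le_rfl

lemma GW_le (g : ℤ[X]) (W : Finset ℚ) (k p : ℕ) : GW g W k p ≤ 2 := by
  unfold GW
  split_ifs
  · exact (one_sub_sum_le' k _ fun _ hl => TT_one_le hl).2.2.trans (by norm_num)
  · norm_num

lemma index_iff' (hC1 : TaskC1) {p : ℕ} [hp : Fact p.Prime] (g : ℤ[X]) (W : Finset ℚ) (k : ℕ)
    (hk : k ≠ 0) (hA : Adm g W p) (b : ZMod p) (hb : b ≠ 0) :
    (Subgroup.closure (UU W p b)).index ∣ k ↔ ∀ l ∈ TT k W p, b ^ ((p - 1) / ql k l) ≠ 1 := by
  classical
  rw [hC1 p k hk]
  constructor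
  · intro h l hl
    have hl2 := hl
    unfold TT at hl2
    obtain ⟨hlS, hlW⟩ := mem_filter.1 hl2
    obtain ⟨u, hu, hu1⟩ := h l hlS
    rcases hu with ⟨a, ha, hua⟩ | hub
    · exfalso
      apply hu1
      have h1 := hlW a ha
      rw [← hua, mul_pow] at h1
      have h2 : ((a.den : ZMod p)) ^ ((p - 1) / ql k l) ≠ 0 := pow_ne_zero _ (hA.2 a ha).2
      have h3 : ((u : ZMod p)) ^ ((p - 1) / ql k l) = 1 :=
        mul_right_cancel₀ h2 (by rw [h1, one_mul])
      apply Units.ext
      push_cast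
      exact h3
    · intro h1
      apply hu1
      apply Units.ext
      push_cast
      rw [hub]
      exact h1
  · intro h l hl
    by_cases hlT : l ∈ TT k W p
    · refine ⟨Units.mk0 b hb, Or.inr rfl, fun h1 => h l hlT ?_⟩
      have := congrArg (Units.val) h1
      push_cast at this
      simpa using this
    · have h2 : ¬ ∀ a ∈ W, (a.num : ZMod p) ^ ((p - 1) / ql k l) =
          (a.den : ZMod p) ^ ((p - 1) / ql k l) := by
        intro h3
        apply hlT
        unfold TT
        exact mem_filter.2 ⟨hl, h3⟩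
      push Not at h2
      obtain ⟨a, ha, h3⟩ := h2
      have hden := (hA.2 a ha).2
      refine ⟨Units.mk0 (rs a p) (rs_ne (hA.2 a ha).1 hden), Or.inl ⟨a, ha, ?_⟩, fun h1 => ?_⟩
      · rw [Units.val_mk0]
        unfold rs
        rw [mul_assoc, inv_mul_cancel₀ hden, mul_one]
      · apply h3
        rw [rs_iff hden]
        have := congrArg (Units.val) h1
        push_cast at this
        simpa using this

/-- the counting problem -/
noncomputable def dW (hA1 : TaskA1) (hA2 : TaskA2) (hB : TaskB) (hC1 : TaskC1) (g : ℤ[X])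
    (hg : g.Monic) (W : Finset ℚ) (hW : ∀ a ∈ W, a ≠ 0) (k : ℕ) (hk : k ≠ 0) (D : ℤ)
    (hD : D ≠ 0) : Dat where
  Q := fun p a => (Adm g W p ∧ (D : ZMod p) * a ≠ 0) ∧
    (Subgroup.closure (UU W p ((D : ZMod p) * a))).index ∣ k
  G := GW g W k
  A := del g W k
  p0 := D.natAbs + 1
  G0 := GW_nn g W k
  G1 := GW_le g W k
  loc := by
    classical
    intro p hp hp0 E M L hL2 hE hM hG
    have : Fact p.Prime := ⟨hp⟩
    have hpD : ¬ (p : ℤ) ∣ D := not_dvd_of_lt hD hp0
    have hD' : (D : ZMod p) ≠ 0 := by rwa [Ne, ZMod.intCast_zmod_eq_zero_iff_dvd]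
    by_cases hA : Adm g W p
    swap
    · have e2 : ((#(E.filter (fun q : ℕ => (Adm g W p ∧ (D : ZMod p) * ((q : ℕ) : ZMod p) ≠ 0) ∧
          (Subgroup.closure (UU W p ((D : ZMod p) * ((q : ℕ) : ZMod p)))).index ∣ k)) : ℕ) : ℝ)
          = 0 := by
        rw [filter_eq_empty_iff.2 (fun q _ hcon => hA hcon.1.1)]
        simp
      unfold GW
      rw [if_neg hA, mul_zero, sub_zero]
      refine le_trans (le_of_eq ?_) (err_nn p E M L hM)
      rw [abs_eq_zero]
      refine Eq.trans ?_ e2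
      congr!
    · have hT : TT k W p ⊆ Sk k (p - 1) := by
        unfold TT
        exact filter_subset _ _
      have hGW : GW g W k p = ∏ l ∈ TT k W p, (1 - 1 / (ql k l : ℝ)) := by
        unfold GW
        rw [if_pos hA]
      rw [hGW]
      have key := taskC2 p k hk (TT k W p) hT E M D L hE hM hG hpD
        (E.filter (fun q : ℕ => (Adm g W p ∧ (D : ZMod p) * ((q : ℕ) : ZMod p) ≠ 0) ∧
          (Subgroup.closure (UU W p ((D : ZMod p) * ((q : ℕ) : ZMod p)))).index ∣ k)) (by
          intro q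
          rw [mem_filter]
          apply and_congr_right
          intro hq
          have h0 : (D : ZMod p) * ((q : ℕ) : ZMod p) ≠ 0 := mul_ne_zero hD' (hE q hq)
          rw [index_iff' hC1 g W k hk hA _ h0]
          constructor
          · rintro ⟨-, h⟩
            exact h
          · intro h
            exact ⟨⟨hA, h0⟩, h⟩)
      have hh0 := hL_nn L p
      have hEh : 0 ≤ (#E : ℝ) * hL L (p - 1) := mul_nonneg (Nat.cast_nonneg _) hh0
      refine le_trans (le_of_eq ?_) (key.trans ?_)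
      · congr!
      · linarith
  lim := GW_lim hA1 hA2 hB g hg W hW k

end Pool.Agent.H74R6.LW
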