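import Mathlib
import Pool.Agent.H74R6.LW.Stmts
import Pool.Agent.H581R3.LWA2fwd
import Pool.Agent.H783R3.LW_A2bwd
import Pool.Agent.H699.LW_B
import Pool.Agent.H259R3.LW_C1
import Pool.Agent.H612K.LW.A1

set_option autoImplicit false

/-! # The parts proved by the helpers -/

namespace Pool.Agent.H74R6.LW

open Finset Filter Topology Polynomial NumberField

theorem taskA2 : TaskA2 := by
  intro L _ _ f hf hL
  obtain ⟨m, hm, h⟩ := Pool.Agent.H783R3.LW.a2_bwd L f hf hL
  exact ⟨m, hm, fun p hp hd => ⟨Pool.Agent.H581R3.LW.a2_fwd L f hf hL p hp, h p hp hd⟩⟩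

theorem taskA1 : TaskA1 := Pool.Agent.H612K.LW.taskA1

theorem taskB : TaskB := Pool.Agent.H699.taskB

theorem taskC1 : TaskC1 := Pool.Agent.H259R3.LWC1.taskC1

end Pool.Agent.H74R6.LW
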