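import Mathlib
import Pool.Agent.H74R6.LW.Dat
import Pool.Agent.H74R6.LW.Parts

set_option autoImplicit false

/-! # The counting problem for a Galois number field -/

namespace Pool.Agent.H74R6.LW

open Finset Filter Topology Polynomial NumberField
open Pool.Agent.H386R2.Artin (PP Good hL LC_pos)
open Pool.Agent.H771R4.SE

/-- for almost all primes `p`: `p` splits completely in `F` if and only if `g` splits modulo `p` -/
lemma compl_iff (F : Type) [Field F] [NumberField F] (hG : IsGalois ℚ F) (g : ℤ[X]) (hg : g.Monic)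
    (hF : IsSplittingField ℚ F (g.map (Int.castRingHom ℚ))) :
    ∃ m : ℕ, 0 < m ∧ ∀ p : ℕ, p.Prime → ¬ p ∣ m →
      (Nat.card (𝓞 F →+* ZMod p) = Module.finrank ℚ F ↔
        (g.map (Int.castRingHom (ZMod p))).Splits) := by
  obtain ⟨m1, h1, h2⟩ := taskA1 F hG
  obtain ⟨m2, h3, h4⟩ := taskA2 F g hg hF
  refine ⟨m1 * m2, Nat.mul_pos h1 h3, fun p hp hd => ?_⟩
  have hd1 : ¬ p ∣ m1 := fun h => hd (h.mul_right _)
  have hd2 : ¬ p ∣ m2 := fun h => hd (h.mul_left _)
  rw [← h4 p hp hd2]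
  constructor
  · intro h
    have h5 : 0 < Nat.card (𝓞 F →+* ZMod p) := by
      rw [h]
      exact Module.finrank_pos
    exact (Nat.card_pos_iff.1 h5).1
  · exact h2 p hp hd1

/-- the counting problem for a Galois number field `F` -/
noncomputable def dF (F : Type) [Field F] [NumberField F] (g : ℤ[X])
    (hg : g.Monic) (m : ℕ) (hm : 0 < m)
    (hmm : ∀ p : ℕ, p.Prime → ¬ p ∣ m →
      (Nat.card (𝓞 F →+* ZMod p) = Module.finrank ℚ F ↔
        (g.map (Int.castRingHom (ZMod p))).Splits))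
    (W : Finset ℚ) (hW : ∀ a ∈ W, a ≠ 0) (k : ℕ) (hk : k ≠ 0) (D : ℤ)
    (hD : D ≠ 0) : Dat where
  Q := fun p a => (Nat.card (𝓞 F →+* ZMod p) = Module.finrank ℚ F ∧
    (∀ a ∈ W, (a.num : ZMod p) ≠ 0 ∧ (a.den : ZMod p) ≠ 0)) ∧ (D : ZMod p) * a ≠ 0 ∧
    (Subgroup.closure (UU W p ((D : ZMod p) * a))).index ∣ k
  G := GW g W k
  A := del g W k
  p0 := max (D.natAbs + 1) (m + 1)
  G0 := GW_nn g W k
  G1 := GW_le g W k
  loc := by
    classical
    intro p hp hp0 E M L hL2 hE hM hG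
    have hp1 : D.natAbs + 1 ≤ p := (le_max_left _ _).trans hp0
    have hp2 : m + 1 ≤ p := (le_max_right _ _).trans hp0
    have hpm : ¬ p ∣ m := fun h => by
      have := Nat.le_of_dvd hm h
      omega
    have key := (dW taskA1 taskA2 taskB taskC1 g hg W hW k hk D hD).loc p hp hp1 E M L hL2 hE hM hG
    have e : (E.filter (fun q : ℕ => (Nat.card (𝓞 F →+* ZMod p) = Module.finrank ℚ F ∧
        (∀ a ∈ W, (a.num : ZMod p) ≠ 0 ∧ (a.den : ZMod p) ≠ 0)) ∧
        (D : ZMod p) * ((q : ℕ) : ZMod p) ≠ 0 ∧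
        (Subgroup.closure (UU W p ((D : ZMod p) * ((q : ℕ) : ZMod p)))).index ∣ k)) =
        E.filter (fun q : ℕ => (dW taskA1 taskA2 taskB taskC1 g hg W hW k hk D hD).Q p
          ((q : ℕ) : ZMod p)) := by
      refine filter_congr fun q _ => ?_
      show _ ↔ (Adm g W p ∧ (D : ZMod p) * ((q : ℕ) : ZMod p) ≠ 0) ∧
        (Subgroup.closure (UU W p ((D : ZMod p) * ((q : ℕ) : ZMod p)))).index ∣ k
      unfold Adm
      rw [hmm p hp hpm]
      simp only [and_assoc]
    refine le_trans (le_of_eq ?_) key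
    have e2 := congrArg Finset.card e
    congr 3
    convert e2
  lim := GW_lim taskA1 taskA2 taskB g hg W hW k

end Pool.Agent.H74R6.LW
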