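import Mathlib
import Pool.Agent.H74R6.LW.Dat

set_option autoImplicit false

/-! # The density is positive -/

namespace Pool.Agent.H74R6.LW

open Finset Filter Topology Polynomial NumberField
open Pool.Agent.H386R2.Artin (PP Good hL LC_pos sumH)
open Pool.Agent.H981R3.LN (ql Sk mem_Sk ql_ge Sk_prime Sk_dvd one_sub_sum_le')
open Pool.Agent.H771R4.SE

lemma GW_ge (g : ℤ[X]) (W : Finset ℚ) (k p : ℕ) (hp : p.Prime) (hA : Adm g W p) (L : ℕ)
    (hh : hL L (p - 1) ≤ 1 / 2) : (1 / 2 : ℝ) ^ (L + 1) ≤ GW g W k p := by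
  classical
  have : Fact p.Prime := ⟨hp⟩
  unfold GW
  rw [if_pos hA, ← Finset.prod_filter_mul_prod_filter_not (TT k W p) (fun l => l ≤ L), pow_succ]
  have hpr : ∀ l ∈ TT k W p, l.Prime := fun l hl => TT_prime hp hl
  have h1 : (1 / 2 : ℝ) ^ L ≤ ∏ l ∈ (TT k W p).filter (fun l => l ≤ L), (1 - 1 / (ql k l : ℝ)) := by
    have hc : ((TT k W p).filter (fun l => l ≤ L)).card ≤ L := by
      have : (TT k W p).filter (fun l => l ≤ L) ⊆ Finset.Icc 1 L := by
        intro l hl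
        rw [mem_filter] at hl
        exact Finset.mem_Icc.2 ⟨(hpr l hl.1).one_le, hl.2⟩
      simpa using Finset.card_le_card this
    calc (1 / 2 : ℝ) ^ L ≤ (1 / 2 : ℝ) ^ ((TT k W p).filter (fun l => l ≤ L)).card :=
          pow_le_pow_of_le_one (by norm_num) (by norm_num) hc
      _ = ∏ l ∈ (TT k W p).filter (fun l => l ≤ L), (1 / 2 : ℝ) := by
          rw [Finset.prod_const]
      _ ≤ _ := by
          refine Finset.prod_le_prod (fun _ _ => by norm_num) fun l hl => ?_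
          have hl' := hpr l (mem_filter.1 hl).1
          have h2 : (2 : ℝ) ≤ (ql k l : ℝ) := by
            exact_mod_cast hl'.two_le.trans (ql_ge hl'.one_le)
          have h3 : 1 / (ql k l : ℝ) ≤ 1 / 2 := one_div_le_one_div_of_le (by norm_num) h2
          linarith
  have h2 : (1 / 2 : ℝ) ≤ ∏ l ∈ (TT k W p).filter (fun l => ¬ l ≤ L), (1 - 1 / (ql k l : ℝ)) := by
    have h3 := (one_sub_sum_le' k ((TT k W p).filter (fun l => ¬ l ≤ L))
      (fun l hl => (hpr l (mem_filter.1 hl).1).one_le)).1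
    have h4 : ∑ l ∈ (TT k W p).filter (fun l => ¬ l ≤ L), 1 / (l : ℝ) ≤ hL L (p - 1) := by
      unfold hL
      refine Finset.sum_le_sum_of_subset_of_nonneg ?_ fun _ _ _ => by positivity
      intro l hl
      rw [mem_filter] at hl
      rw [mem_filter]
      refine ⟨?_, by omega⟩
      have h5 := hl.1
      unfold TT at h5
      have h6 := (mem_filter.1 h5).1
      unfold Pool.Agent.H981R3.LN.Sk at h6
      exact (mem_filter.1 h6).1
    linarith
  exact mul_le_mul h1 h2 (by norm_num) (le_trans (by positivity) h1)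

lemma sum_ge (g : ℤ[X]) (W : Finset ℚ) (k L x : ℕ) :
    (1 / 2 : ℝ) ^ (L + 1) * ((VV g W k 1 x : ℝ) - 2 * ∑ p ∈ PP x, hL L (p - 1)) ≤
      ∑ p ∈ PP x, GW g W k p := by
  classical
  have h1 : (VV g W k 1 x : ℝ) = ∑ p ∈ PP x, (if Adm g W p ∧ SS k W 1 p then (1 : ℝ) else 0) := by
    unfold VV cnt PP
    rw [Finset.card_filter]
    push_cast
    rfl
  rw [h1, Finset.mul_sum, ← Finset.sum_sub_distrib, Finset.mul_sum]
  refine Finset.sum_le_sum fun p hp => ?_
  have hp' : p.Prime := (mem_filter.1 hp).2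
  have hn := hL_nn L p
  have hG := GW_nn g W k p
  have hc : (0 : ℝ) < (1 / 2 : ℝ) ^ (L + 1) := by positivity
  by_cases hA : Adm g W p ∧ SS k W 1 p
  · rw [if_pos hA]
    by_cases hh : hL L (p - 1) ≤ 1 / 2
    · have h2 := GW_ge g W k p hp' hA.1 L hh
      nlinarith
    · push Not at hh
      nlinarith
  · rw [if_neg hA]
    nlinarith

theorem del_pos (hA1 : TaskA1) (hA2 : TaskA2) (hB : TaskB) (g : ℤ[X]) (hg : g.Monic)
    (W : Finset ℚ) (hW : ∀ a ∈ W, a ≠ 0) (k : ℕ) : 0 < del g W k := by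
  classical
  obtain ⟨C, hC, h5⟩ := sumH
  have hdg : 0 < dg g W k 1 := by
    unfold dg
    have := nf ((ff g W (QQ k 1)).map (Int.castRingHom ℚ))
    exact Module.finrank_pos
  have hc0 : (0 : ℝ) < 1 / (dg g W k 1 : ℝ) := by positivity
  obtain ⟨L, hL0, hL1⟩ : ∃ L : ℕ, 1 ≤ L ∧ 2 * (C / (L : ℝ)) < (1 / (dg g W k 1 : ℝ)) / 2 := by
    have : Tendsto (fun L : ℕ => 2 * (C / (L : ℝ))) atTop (𝓝 (2 * 0)) :=
      (tendsto_const_nhds.div_atTop tendsto_natCast_atTop_atTop).const_mul 2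
    rw [mul_zero] at this
    obtain ⟨L, h1, h2⟩ := ((eventually_ge_atTop 1).and
      (this.eventually (gt_mem_nhds (show (0 : ℝ) < (1 / (dg g W k 1 : ℝ)) / 2 by positivity)))).exists
    exact ⟨L, h1, h2⟩
  obtain ⟨x₅, hx₅⟩ := h5 L hL0
  have hlim := (((VV_lim hA1 hA2 hB g hg W hW k 1).sub_const (2 * (C / (L : ℝ)))).const_mul
    ((1 / 2 : ℝ) ^ (L + 1)))
  have hle : (1 / 2 : ℝ) ^ (L + 1) * (1 / (dg g W k 1 : ℝ) - 2 * (C / (L : ℝ))) ≤ del g W k := by
    refine le_of_tendsto_of_tendsto hlim (GW_lim hA1 hA2 hB g hg W hW k) ?_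
    filter_upwards [eventually_ge_atTop x₅, pi_atTop.eventually (eventually_ge_atTop 1)] with x hx hπ
    have h1 := hx₅ x hx
    have h2 := sum_ge g W k L x
    have hπ0 : (0 : ℝ) < (Nat.primeCounting x : ℝ) := lt_of_lt_of_le one_pos hπ
    have hc : (0 : ℝ) < (1 / 2 : ℝ) ^ (L + 1) := by positivity
    rw [le_div_iff₀ hπ0]
    refine le_trans ?_ h2
    rw [mul_assoc]
    refine mul_le_mul_of_nonneg_left ?_ hc.le
    rw [sub_mul, div_mul_cancel₀ _ hπ0.ne']
    nlinarith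
  have h3 : 0 < (1 / 2 : ℝ) ^ (L + 1) * (1 / (dg g W k 1 : ℝ) - 2 * (C / (L : ℝ))) := by
    have : 0 < 1 / (dg g W k 1 : ℝ) - 2 * (C / (L : ℝ)) := by linarith
    positivity
  linarith

end Pool.Agent.H74R6.LW
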