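import Mathlib
import Pool.Agent.H74R6.LW.Gal
import Pool.Agent.H74R6.LW.PosD
import Pool.Agent.H16R3.LW_E

set_option autoImplicit false

/-! # The degrees -/

namespace Pool.Agent.H74R6.LW

open Finset Polynomial NumberField IntermediateField

theorem exists_poly (F : Type) [Field F] [NumberField F] (hG : IsGalois ℚ F) :
    ∃ g : ℤ[X], g.Monic ∧ IsSplittingField ℚ F (g.map (Int.castRingHom ℚ)) := by
  obtain ⟨θ, hθ⟩ := Field.exists_primitive_element ℚ F
  have hθa : IsAlgebraic ℤ θ := by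
    have h1 : IsAlgebraic ℚ θ := Algebra.IsAlgebraic.isAlgebraic θ
    exact (IsFractionRing.isAlgebraic_iff ℤ ℚ F).2 h1
  obtain ⟨y, hy, hi⟩ := hθa.exists_integral_multiple
  obtain ⟨α, hα⟩ : ∃ α, α = y • θ := ⟨_, rfl⟩
  rw [← hα] at hi
  have hy' : (y : ℚ) ≠ 0 := by exact_mod_cast hy
  have hmap : (minpoly ℤ α).map (Int.castRingHom ℚ) = minpoly ℚ α := by
    have := minpoly.isIntegrallyClosed_eq_field_fractions' ℚ hi
    rw [this]
    congr 1
  refine ⟨minpoly ℤ α, minpoly.monic hi, ?_⟩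
  rw [hmap]
  have hθα : θ = (y : ℚ)⁻¹ • α := by
    rw [hα, Algebra.smul_def, Algebra.smul_def, ← mul_assoc]
    have : algebraMap ℚ F ((y : ℚ)⁻¹) * algebraMap ℤ F y = 1 := by
      rw [map_inv₀]
      simp only [eq_ratCast, Rat.cast_intCast, algebraMap_int_eq, eq_intCast]
      apply inv_mul_cancel₀
      exact_mod_cast hy
    rw [this, one_mul]
  refine ⟨(inferInstance : Normal ℚ F).splits α, ?_⟩
  have hmem : α ∈ (minpoly ℚ α).rootSet F := by
    rw [mem_rootSet]
    exact ⟨minpoly.ne_zero (Algebra.IsIntegral.isIntegral α), minpoly.aeval _ _⟩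
  have hθm : θ ∈ Algebra.adjoin ℚ ((minpoly ℚ α).rootSet F) := by
    rw [hθα]
    exact Subalgebra.smul_mem _ (Algebra.subset_adjoin hmem) _
  have htop : Algebra.adjoin ℚ {θ} = ⊤ := by
    rw [← adjoin_simple_toSubalgebra_of_isAlgebraic (Algebra.IsAlgebraic.isAlgebraic θ), hθ,
      top_toSubalgebra]
  rw [eq_top_iff, ← htop]
  exact Algebra.adjoin_le (Set.singleton_subset_iff.2 hθm)

theorem taskF3 (F : Type) [Field F] [NumberField F] (g : ℚ[X]) (hg : g ≠ 0)
    (hF : IsSplittingField ℚ F g) (h : ℚ[X]) (hh : h ≠ 0) :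
    Module.finrank ℚ (SplittingField (g * h)) =
      Module.finrank ℚ F * Module.finrank F (SplittingField (h.map (algebraMap ℚ F))) := by
  have : CharZero (SplittingField (h.map (algebraMap ℚ F))) :=
    charZero_of_injective_algebraMap (algebraMap F (SplittingField (h.map (algebraMap ℚ F)))).injective
  let alg : Algebra ℚ (SplittingField (h.map (algebraMap ℚ F))) := DivisionRing.toRatAlgebra
  have tow : IsScalarTower ℚ F (SplittingField (h.map (algebraMap ℚ F))) :=
    IsScalarTower.of_algebraMap_eq fun x => by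
      simp
  have hK : IsSplittingField F (SplittingField (h.map (algebraMap ℚ F))) (h.map (algebraMap ℚ F)) :=
    IsSplittingField.splittingField _
  have h1 : IsSplittingField ℚ (SplittingField (h.map (algebraMap ℚ F))) (g * h) :=
    IsSplittingField.mul (K := F) (SplittingField (h.map (algebraMap ℚ F))) g h hg hh
  have e := IsSplittingField.algEquiv (SplittingField (h.map (algebraMap ℚ F))) (g * h)
  rw [Module.finrank_mul_finrank ℚ F (SplittingField (h.map (algebraMap ℚ F)))]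
  have h3 : ∀ (c : ℚ) (x : SplittingField (h.map (algebraMap ℚ F))), e (c • x) = c • e x :=
    fun c x => map_rat_smul e c x
  exact (LinearEquiv.finrank_eq { e.toRingEquiv.toAddEquiv with map_smul' := h3 }).symm

/-- the degree of `F·L_n` over the rationals -/
noncomputable def dgF (F : Type) [Field F] [NumberField F] (W : Finset ℚ) (r : ℕ) : ℕ :=
  Module.finrank ℚ F * Module.finrank F
    (SplittingField ((X ^ r - 1) * ∏ a ∈ W, (X ^ r - C (a : F)) : F[X]))

lemma dg_eq (F : Type) [Field F] [NumberField F] (g : ℤ[X]) (hg : g.Monic)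
    (hF : IsSplittingField ℚ F (g.map (Int.castRingHom ℚ))) (W : Finset ℚ)
    (hW : ∀ a ∈ W, a ≠ 0) (k n : ℕ) : dg g W k n = dgF F W (QQ k n) := by
  have hr : 1 ≤ QQ k n := QQ_pos k n
  have e : ((X ^ (QQ k n) - 1) * ∏ a ∈ W, (X ^ (QQ k n) - C a) : ℚ[X]).map (algebraMap ℚ F) =
      (X ^ (QQ k n) - 1) * ∏ a ∈ W, (X ^ (QQ k n) - C (a : F)) := by
    rw [Polynomial.map_mul, Polynomial.map_sub, Polynomial.map_pow, Polynomial.map_X,
      Polynomial.map_one, Polynomial.map_prod]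
    congr 1
    refine Finset.prod_congr rfl fun a _ => ?_
    rw [Polynomial.map_sub, Polynomial.map_pow, Polynomial.map_X, Polynomial.map_C,
      eq_ratCast]
  unfold dg dgF
  rw [Pool.Agent.H16R3.LWE.taskE g W (QQ k n) hg hW hr, mul_assoc,
    taskF3 F _ (hg.map _).ne_zero hF ((X ^ (QQ k n) - 1) * ∏ a ∈ W, (X ^ (QQ k n) - C a))]
  · rw [e]
  · refine mul_ne_zero ?_ (Finset.prod_ne_zero_iff.2 fun a _ => ?_)
    · have := (monic_X_pow_sub_C (1 : ℚ) (n := QQ k n) (by omega)).ne_zero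
      simpa using this
    · exact (monic_X_pow_sub_C a (by omega)).ne_zero

theorem main (F : Type) [Field F] [NumberField F] (hG : IsGalois ℚ F) (W : Finset ℚ)
    (hW : ∀ a ∈ W, a ≠ 0) (k : ℕ) (hk : k ≠ 0) (D : ℤ) (hD : D ≠ 0) :
    ∃ d : Pool.Agent.H771R4.SE.Dat, (d.Q = fun p a =>
      (Nat.card (𝓞 F →+* ZMod p) = Module.finrank ℚ F ∧
        (∀ a ∈ W, (a.num : ZMod p) ≠ 0 ∧ (a.den : ZMod p) ≠ 0)) ∧ (D : ZMod p) * a ≠ 0 ∧
        (Subgroup.closure (UU W p ((D : ZMod p) * a))).index ∣ k) ∧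
      d.A = ∑' n : ℕ, ((ArithmeticFunction.moebius n : ℤ) : ℝ) /
        ((QQ k n : ℝ) * (dgF F W (QQ k n) : ℝ)) ∧ 0 < d.A := by
  obtain ⟨g, hg, hF⟩ := exists_poly F hG
  obtain ⟨m, hm, hmm⟩ := compl_iff F hG g hg hF
  refine ⟨dF F g hg m hm hmm W hW k hk D hD, rfl, ?_, del_pos taskA1 taskA2 taskB g hg W hW k⟩
  show del g W k = _
  unfold del
  refine tsum_congr fun n => ?_
  rw [dg_eq F g hg hF W hW k n]

end Pool.Agent.H74R6.LW
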